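import Pool.Agent.H2.QP.MPS
import Pool.Agent.H83.RC.Targets

/-!
# Row MPC of the class rows of board qp_modules (MP_c59857_nt): the relations pass down to shorter
windows, complex functions bounded by one
-/

set_option autoImplicit false

namespace Pool.Agent.H2.QP

open Finset Pool.Agent.H18.MR Pool.Agent.H93.DE Pool.Agent.H6.N4D Pool.Agent.H93
  Pool.Agent.H93.ES Pool.Agent.H28.NW Pool.Agent.H87.QP Pool.Agent.H78.RC
  Pool.Agent.H83.RC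

theorem FC_nonneg (f : ℕ → ℂ) (H L q n : ℕ) (c : ℕ → ℂ) : 0 ≤ FC f H q L n c := by
  unfold FC
  exact div_nonneg (sum_nonneg fun _ _ => by positivity) (Nat.cast_nonneg _)

theorem pc_le_of_flt (f : ℕ → ℂ) (H L q n : ℕ) {c : ℕ → ℂ} (hc : Flt H c) :
    pc f H L q n ≤ FC f H q L n c := by
  unfold pc
  refine ciInf_le (f := fun c : {c : ℕ → ℂ // Flt H c} => FC f H q L n c) ⟨0, ?_⟩ ⟨c, hc⟩
  rintro _ ⟨c, rfl⟩
  exact FC_nonneg f H L q n c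

theorem filter_leC (f : ℕ → ℂ) (H q m : ℕ) (c : ℕ → ℂ) (hf : ∀ n, ‖f n‖ ≤ 1)
    (hc : ∀ h, ‖c h‖ ≤ 1) :
    ‖∑ h ∈ range (H + 1), c h * f (m + q * h)‖ ^ 2 ≤ ((H : ℝ) + 1) ^ 2 := by
  refine pow_le_pow_left₀ (norm_nonneg _) ?_ 2
  refine (norm_sum_le _ _).trans ?_
  calc ∑ h ∈ range (H + 1), ‖c h * f (m + q * h)‖ ≤ ∑ _h ∈ range (H + 1), (1 : ℝ) := by
        refine sum_le_sum fun h _ => ?_
        rw [norm_mul]
        exact mul_le_one₀ (hc h) (norm_nonneg _) (hf _)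
    _ = (H : ℝ) + 1 := by simp

theorem FC_sub (f : ℕ → ℂ) (H L L' q n : ℕ) (c : ℕ → ℂ) (hf : ∀ n, ‖f n‖ ≤ 1)
    (hc : ∀ h, ‖c h‖ ≤ 1) (hL' : 1 ≤ L') :
    (∑ u ∈ Ioc n (n + L), FC f H q L' u c) / L ≤
      FC f H q L n c + ((H : ℝ) + 1) ^ 2 * L' / L := by
  have h1 := sub_windows (fun m => ‖∑ h ∈ range (H + 1), c h * f (m + q * h)‖ ^ 2)
    (((H : ℝ) + 1) ^ 2) n L L' (fun _ => by positivity) (fun m => filter_leC f H q m c hf hc) hL'
  unfold FC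
  rw [← add_div]
  exact div_le_div_of_nonneg_right h1 (Nat.cast_nonneg _)

theorem pf_MPC : T_MPC := by
  intro f H L L' q n hf hL' hLL'
  have : Nonempty {c : ℕ → ℂ // Flt H c} := ⟨⟨_, flt_one H⟩⟩
  rw [← sub_le_iff_le_add]
  unfold pc
  refine le_ciInf fun c => ?_
  rw [sub_le_iff_le_add]
  have h1 := FC_sub f H L L' q n c.1 hf c.2.1 hL'
  have h2 : (∑ u ∈ Ioc n (n + L), pc f H L' q u) / L ≤
      (∑ u ∈ Ioc n (n + L), FC f H q L' u c.1) / L :=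
    div_le_div_of_nonneg_right (sum_le_sum fun u _ => pc_le_of_flt f H L' q u c.2)
      (Nat.cast_nonneg _)
  have h3 : 0 ≤ ((H : ℝ) + 1) ^ 2 * L' / L := by positivity
  have h4 : 2 * ((H : ℝ) + 1) ^ 2 * L' / L = 2 * (((H : ℝ) + 1) ^ 2 * L' / L) := by ring
  have h5 : (∑ u ∈ Ioc n (n + L), pc f H L' q u) / L ≤
      FC f H q L n c.1 + 2 * ((H : ℝ) + 1) ^ 2 * L' / L := by
    rw [h4]
    linarith
  exact h5

end Pool.Agent.H2.QP
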