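import Pool.Agent.H2.QP.PSB

/-!
# Row MPS of board qp_modules (MP_c59857_nt): the relations pass down to shorter windows
-/

set_option autoImplicit false

namespace Pool.Agent.H2.QP

open Finset Pool.Agent.H18.MR Pool.Agent.H93.DE Pool.Agent.H6.N4D Pool.Agent.H93
  Pool.Agent.H93.ES Pool.Agent.H28.NW Pool.Agent.H87.QP

theorem sum_ioc (g : ℕ → ℝ) (n L : ℕ) :
    ∑ m ∈ Ioc n (n + L), g m = ∑ t ∈ range L, g (n + 1 + t) := by
  have h2 : Ioc n (n + L) = Ico (n + 1) (n + 1 + L) := by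
    ext m
    simp only [mem_Ioc, mem_Ico]
    omega
  rw [h2, sum_Ico_eq_sum_range, Nat.add_sub_cancel_left]

/-- the mean over a window of the means over its short subwindows -/
theorem sub_windows (g : ℕ → ℝ) (B : ℝ) (n L L' : ℕ) (h0 : ∀ m, 0 ≤ g m) (hB : ∀ m, g m ≤ B)
    (hL' : 1 ≤ L') :
    ∑ u ∈ Ioc n (n + L), (∑ m ∈ Ioc u (u + L'), g m) / L' ≤
      ∑ m ∈ Ioc n (n + L), g m + B * L' := by
  have hB0 : 0 ≤ B := (h0 0).trans (hB 0)
  have hp : (0 : ℝ) < L' := by exact_mod_cast hL'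
  rw [← sum_div, div_le_iff₀ hp]
  have e1 : ∑ u ∈ Ioc n (n + L), ∑ m ∈ Ioc u (u + L'), g m =
      ∑ t ∈ range L', ∑ x ∈ range L, g (n + 1 + (1 + t + x)) := by
    rw [sum_congr rfl fun u _ => sum_ioc g u L', sum_comm]
    refine sum_congr rfl fun t _ => ?_
    rw [sum_ioc (fun u => g (u + 1 + t)) n L]
    refine sum_congr rfl fun x _ => ?_
    congr 1
    omega
  rw [e1, sum_ioc g n L]
  have e2 : ∀ t ∈ range L', ∑ x ∈ range L, g (n + 1 + (1 + t + x)) ≤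
      ∑ x ∈ range L, g (n + 1 + x) + B * L' := by
    intro t ht
    rw [mem_range] at ht
    have h1 := sum_range_add (fun x => g (n + 1 + x)) (1 + t) L
    have h2 := sum_range_add (fun x => g (n + 1 + x)) L (1 + t)
    rw [add_comm L (1 + t)] at h2
    have h3 : 0 ≤ ∑ x ∈ range (1 + t), g (n + 1 + x) := sum_nonneg fun _ _ => h0 _
    have h4 : ∑ x ∈ range (1 + t), g (n + 1 + (L + x)) ≤ B * L' := by
      calc ∑ x ∈ range (1 + t), g (n + 1 + (L + x)) ≤ ∑ _x ∈ range (1 + t), B :=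
            sum_le_sum fun _ _ => hB _
        _ = ((1 + t : ℕ) : ℝ) * B := by rw [sum_const, card_range, nsmul_eq_mul]
        _ ≤ (L' : ℝ) * B := by
            refine mul_le_mul_of_nonneg_right ?_ hB0
            exact_mod_cast (by omega : 1 + t ≤ L')
        _ = B * L' := mul_comm _ _
    linarith
  calc ∑ t ∈ range L', ∑ x ∈ range L, g (n + 1 + (1 + t + x)) ≤
        ∑ _t ∈ range L', (∑ x ∈ range L, g (n + 1 + x) + B * L') := sum_le_sum e2
    _ = (∑ x ∈ range L, g (n + 1 + x) + B * L') * L' := by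
        rw [sum_const, card_range, nsmul_eq_mul, mul_comm]

/-- the values of a filter are bounded -/
theorem filter_le (lam : ℕ → ℝ) (H q m : ℕ) (c : ℕ → ℂ) (hl : ∀ n, lam n = 1 ∨ lam n = -1)
    (hc : ∀ h, ‖c h‖ ≤ 1) :
    ‖∑ h ∈ range (H + 1), c h * (lam (m + q * h) : ℂ)‖ ^ 2 ≤ ((H : ℝ) + 1) ^ 2 := by
  refine pow_le_pow_left₀ (norm_nonneg _) ?_ 2
  refine (norm_sum_le _ _).trans ?_
  calc ∑ h ∈ range (H + 1), ‖c h * (lam (m + q * h) : ℂ)‖ ≤ ∑ _h ∈ range (H + 1), (1 : ℝ) := by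
        refine sum_le_sum fun h _ => ?_
        rw [norm_mul, Complex.norm_real, Real.norm_eq_abs]
        have : |lam (m + q * h)| = 1 := by
          rcases hl (m + q * h) with h | h <;> rw [h] <;> norm_num
        rw [this, mul_one]
        exact hc h
    _ = (H : ℝ) + 1 := by simp

theorem fl_sub (lam : ℕ → ℝ) (H L L' q n : ℕ) (c : ℕ → ℂ) (hl : ∀ n, lam n = 1 ∨ lam n = -1)
    (hc : ∀ h, ‖c h‖ ≤ 1) (hL' : 1 ≤ L') :
    (∑ u ∈ Ioc n (n + L), fl lam H L' q u c) / L ≤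
      fl lam H L q n c + ((H : ℝ) + 1) ^ 2 * L' / L := by
  have h1 := sub_windows (fun m => ‖∑ h ∈ range (H + 1), c h * (lam (m + q * h) : ℂ)‖ ^ 2)
    (((H : ℝ) + 1) ^ 2) n L L' (fun _ => by positivity) (fun m => filter_le lam H q m c hl hc) hL'
  unfold fl
  rw [← add_div]
  exact div_le_div_of_nonneg_right h1 (Nat.cast_nonneg _)

theorem pf_MPS' : T_MPS := by
  intro lam H L L' q n hl hL' hLL'
  have : Nonempty {c : ℕ → ℂ // Flt H c} := ⟨⟨_, flt_one H⟩⟩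
  rw [← sub_le_iff_le_add]
  unfold ps
  refine le_ciInf fun c => ?_
  rw [sub_le_iff_le_add]
  have h1 := fl_sub lam H L L' q n c.1 hl c.2.1 hL'
  have h2 : (∑ u ∈ Ioc n (n + L), ps lam H L' q u) / L ≤
      (∑ u ∈ Ioc n (n + L), fl lam H L' q u c.1) / L :=
    div_le_div_of_nonneg_right (sum_le_sum fun u _ => ps_le_of_flt lam H L' q u c.2)
      (Nat.cast_nonneg _)
  have h3 : 0 ≤ ((H : ℝ) + 1) ^ 2 * L' / L := by positivity
  have h4 : 2 * ((H : ℝ) + 1) ^ 2 * L' / L = 2 * (((H : ℝ) + 1) ^ 2 * L' / L) := by ring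
  have h5 : (∑ u ∈ Ioc n (n + L), ps lam H L' q u) / L ≤
      fl lam H L q n c.1 + 2 * ((H : ℝ) + 1) ^ 2 * L' / L := by
    rw [h4]
    linarith
  exact h5

theorem pf_MPS (_ : T_PSB) : T_MPS := pf_MPS'

end Pool.Agent.H2.QP
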