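import Pool.Agent.H87.QP.Targets2

/-!
# Row PSB of board qp_modules (MP_c59857_nt): the basic properties of `ps`
-/

set_option autoImplicit false

namespace Pool.Agent.H2.QP

open Finset Pool.Agent.H18.MR Pool.Agent.H93.DE Pool.Agent.H6.N4D Pool.Agent.H93
  Pool.Agent.H93.ES Pool.Agent.H28.NW Pool.Agent.H87.QP

theorem fl_nonneg (lam : ℕ → ℝ) (H L q n : ℕ) (c : ℕ → ℂ) : 0 ≤ fl lam H L q n c := by
  unfold fl
  exact div_nonneg (sum_nonneg fun _ _ => by positivity) (Nat.cast_nonneg _)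

theorem flt_one (H : ℕ) : Flt H (fun h => if h = 0 then 1 else 0) := by
  refine ⟨fun h => ?_, ?_⟩
  · by_cases h0 : h = 0 <;> simp [h0]
  · rw [sum_eq_single 0]
    · simp
    · intro b _ hb
      simp [hb]
    · intro h
      exact absurd (mem_range.2 (Nat.succ_pos H)) h

theorem fl_one (lam : ℕ → ℝ) (H L q n : ℕ) (hl : ∀ n, lam n = 1 ∨ lam n = -1) (hL : 1 ≤ L) :
    fl lam H L q n (fun h => if h = 0 then 1 else 0) = 1 := by
  unfold fl
  have h1 : ∀ m ∈ Ioc n (n + L),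
      ‖∑ h ∈ range (H + 1), (if h = 0 then (1 : ℂ) else 0) * (lam (m + q * h) : ℂ)‖ ^ 2 =
        (1 : ℝ) := by
    intro m _
    have h2 : ∑ h ∈ range (H + 1), (if h = 0 then (1 : ℂ) else 0) * (lam (m + q * h) : ℂ) =
        (lam m : ℂ) := by
      rw [sum_eq_single 0]
      · simp
      · intro b _ hb
        simp [hb]
      · intro h
        exact absurd (mem_range.2 (Nat.succ_pos H)) h
    rw [h2, Complex.norm_real, Real.norm_eq_abs, sq_abs]
    rcases hl m with h | h <;> rw [h] <;> norm_num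
  rw [sum_congr rfl h1, sum_const, Nat.card_Ioc, Nat.add_sub_cancel_left, nsmul_eq_mul, mul_one]
  have h3 : (L : ℝ) ≠ 0 := by
    have : (0 : ℝ) < L := by exact_mod_cast hL
    exact this.ne'
  exact div_self h3

theorem bdd (lam : ℕ → ℝ) (H L q n : ℕ) :
    BddBelow (Set.range fun c : {c : ℕ → ℂ // Flt H c} => fl lam H L q n c) := by
  refine ⟨0, ?_⟩
  rintro _ ⟨c, rfl⟩
  exact fl_nonneg lam H L q n c

theorem ps_le_of_flt (lam : ℕ → ℝ) (H L q n : ℕ) {c : ℕ → ℂ} (hc : Flt H c) :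
    ps lam H L q n ≤ fl lam H L q n c := by
  unfold ps
  exact ciInf_le (bdd lam H L q n) ⟨c, hc⟩

theorem ps_le (lam : ℕ → ℝ) (H L q n : ℕ) {c : ℕ → ℂ}
    (hc : 1 ≤ ∑ h ∈ range (H + 1), ‖c h‖ ^ 2) : ps lam H L q n ≤ fl lam H L q n c := by
  obtain ⟨M, hM⟩ : ∃ M : ℝ, M = √(∑ h ∈ range (H + 1), ‖c h‖ ^ 2) := ⟨_, rfl⟩
  have hMsq : M ^ 2 = ∑ h ∈ range (H + 1), ‖c h‖ ^ 2 := by
    rw [hM]
    exact Real.sq_sqrt (sum_nonneg fun _ _ => by positivity)
  have hM1 : 1 ≤ M := by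
    rw [hM]
    exact Real.one_le_sqrt.2 hc
  have hM0 : 0 < M := lt_of_lt_of_le one_pos hM1
  have hnM : ‖(M : ℂ)‖ = M := by
    rw [Complex.norm_real, Real.norm_eq_abs, abs_of_pos hM0]
  have hF : Flt H (fun h => if h ≤ H then c h / (M : ℂ) else 0) := by
    refine ⟨fun h => ?_, ?_⟩
    · by_cases hh : h ≤ H
      · simp only [if_pos hh]
        rw [norm_div, hnM, div_le_one hM0]
        refine le_of_sq_le_sq ?_ hM0.le
        rw [hMsq]
        exact single_le_sum (f := fun h => ‖c h‖ ^ 2) (fun _ _ => by positivity)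
          (mem_range.2 (Nat.lt_succ_of_le hh))
      · simp only [if_neg hh, norm_zero]
        exact zero_le_one
    · have h1 : ∀ h ∈ range (H + 1), ‖(if h ≤ H then c h / (M : ℂ) else 0)‖ ^ 2 =
          ‖c h‖ ^ 2 / M ^ 2 := by
        intro h hh
        rw [if_pos (Nat.lt_succ_iff.1 (mem_range.1 hh)), norm_div, hnM, div_pow]
      rw [sum_congr rfl h1, ← sum_div, ← hMsq]
      exact div_self (by positivity)
  refine (ps_le_of_flt lam H L q n hF).trans ?_
  unfold fl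
  refine div_le_div_of_nonneg_right (sum_le_sum fun m _ => ?_) (Nat.cast_nonneg _)
  have h2 : ∑ h ∈ range (H + 1), (if h ≤ H then c h / (M : ℂ) else 0) *
      (lam (m + q * h) : ℂ) = (∑ h ∈ range (H + 1), c h * (lam (m + q * h) : ℂ)) /
        (M : ℂ) := by
    rw [sum_div]
    refine sum_congr rfl fun h hh => ?_
    rw [if_pos (Nat.lt_succ_iff.1 (mem_range.1 hh))]
    ring
  rw [h2, norm_div, hnM]
  refine pow_le_pow_left₀ (by positivity) ?_ 2
  exact div_le_self (norm_nonneg _) hM1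

theorem pf_PSB : T_PSB := by
  intro lam H L q n hl hL
  have : Nonempty {c : ℕ → ℂ // Flt H c} := ⟨⟨_, flt_one H⟩⟩
  refine ⟨?_, ?_, ?_, ?_⟩
  · unfold ps
    exact le_ciInf fun c => fl_nonneg lam H L q n c
  · refine (ps_le_of_flt lam H L q n (flt_one H)).trans ?_
    rw [fl_one lam H L q n hl hL]
  · intro c hc
    exact ps_le lam H L q n hc
  · intro δ hδ
    have h1 : (⨅ c : {c : ℕ → ℂ // Flt H c}, fl lam H L q n c) < ps lam H L q n + δ := by
      change ps lam H L q n < _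
      linarith
    obtain ⟨c, hc⟩ := exists_lt_of_ciInf_lt h1
    exact ⟨c.1, c.2, hc.le⟩

end Pool.Agent.H2.QP
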