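import Pool.Agent.H87.QP.Targets
import Pool.Agent.H42.ES.WIN

/-!
# Row WIH of board qp_modules (MP_c59857_nt): windows inside a block
-/

set_option autoImplicit false

namespace Pool.Agent.H2.QP

open Finset Pool.Agent.H18.MR Pool.Agent.H93.DE Pool.Agent.H6.N4D Pool.Agent.H93
  Pool.Agent.H93.ES Pool.Agent.H28.NW Pool.Agent.H87.QP

theorem ioc_range_real (n' L : ℕ) (h1 : 1 ≤ n') (f : ℕ → ℝ) :
    ∑ m ∈ Ioc (n' - 1) (n' - 1 + L), f m = ∑ t ∈ range L, f (n' + t) := by
  have h2 : Ioc (n' - 1) (n' - 1 + L) = Ico n' (n' + L) := by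
    ext m
    simp only [mem_Ioc, mem_Ico]
    omega
  rw [h2, sum_Ico_eq_sum_range, Nat.add_sub_cancel_left]

theorem pf_WIH : T_WIH := by
  intro N w i q h _ lam k hi hlam hq hqN hk
  have hN : 1 ≤ N := NeZero.one_le
  have h1 : 1 ≤ i * N + k.val := by
    have : 1 * 1 ≤ i * N := Nat.mul_le_mul hi hN
    omega
  have e1 : wm (fh (ltr (blk lam N i) k) q h) w (kA q k.val 0) =
      ((tq lam q (2 ^ w) h (i * N + k.val - 1) : ℝ) : ℂ) := by
    unfold tq wm
    rw [ioc_range_real _ _ h1]
    have h2 : ∑ t ∈ range (2 ^ w), ((fh (ltr (blk lam N i) k) q h t : ℝ) : ℂ) * kA q k.val 0 t =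
        ((∑ t ∈ range (2 ^ w), lam (i * N + k.val + t) * lam (i * N + k.val + t + q * h) *
          EB.D q (i * N + k.val + t) : ℝ) : ℂ) := by
      rw [Complex.ofReal_sum]
      refine sum_congr rfl fun t ht => ?_
      rw [mem_range] at ht
      have h3 : EB.D q (i * N + k.val + t) = DR q (k.val + t) := by
        unfold EB.D DR
        simp only [Pool.Agent.H42.ES.dvd_shift hqN]
      unfold fh kA
      rw [Pool.Agent.H42.ES.ltr_eq lam i k hlam h1 (t := t) (by omega),
        Pool.Agent.H42.ES.ltr_eq lam i k hlam h1 (t := t + q * h) (by omega), h3]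
      have h4 : ee (-(0 * (t : ℝ))) = 1 := by
        unfold ee
        simp
      rw [h4, mul_one, ← add_assoc]
      push_cast
      ring
    rw [h2]
    push_cast
    rfl
  rw [e1, Complex.norm_real, Real.norm_eq_abs]

end Pool.Agent.H2.QP
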